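import Mathlib

/-!
# Nested equivalence relations: counting types, finite approximation, back-and-forth step
-/

namespace Pool.Agent.Q202.UT

universe u v w

/-- A nested sequence of equivalence relations, the first being equality. -/
structure Nested {A : Type u} (E : ℕ → A → A → Prop) : Prop where
  refl : ∀ k x, E k x x
  symm : ∀ k x y, E k x y → E k y x
  trans : ∀ k x y z, E k x y → E k y z → E k x z
  mono : ∀ k x y, E k x y → E (k + 1) x y
  eq : ∀ x y, E 0 x y → x = y

theorem Nested.le {A : Type u} {E : ℕ → A → A → Prop} (h : Nested E) {k l : ℕ} (hkl : k ≤ l)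
    {x y : A} (hxy : E k x y) : E l x y := by
  induction hkl with
  | refl => exact hxy
  | step _ ih => exact h.mono _ _ _ ih

/-- The type of level-`k` types with threshold `R`. -/
def Ty (R : ℕ) : ℕ → Type
  | 0 => Unit
  | k + 1 => Ty R k → Set (Fin (R + 1))

instance Ty.finite (R : ℕ) : ∀ k, Finite (Ty R k)
  | 0 => inferInstanceAs (Finite Unit)
  | k + 1 => by
    have := Ty.finite R k
    exact inferInstanceAs (Finite (Ty R k → Set (Fin (R + 1))))

/-- level-`k` type of an element -/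
def tau (R : ℕ) {A : Type u} (E : ℕ → A → A → Prop) : (k : ℕ) → A → Ty R k
  | 0, _ => ()
  | k + 1, a => fun σ => {j | ∃ g : Fin j.val → A,
      (∀ i, E (k + 1) (g i) a ∧ tau R E k (g i) = σ) ∧ ∀ i i', i ≠ i' → ¬ E k (g i) (g i')}

/-- there are at least `j` pairwise `E_k`-inequivalent elements of type `σ` in `[a]_{k+1}` -/
def Many (R : ℕ) {A : Type u} (E : ℕ → A → A → Prop) (k j : ℕ) (a : A) (σ : Ty R k) : Prop :=
  ∃ g : Fin j → A,
      (∀ i, E (k + 1) (g i) a ∧ tau R E k (g i) = σ) ∧ ∀ i i', i ≠ i' → ¬ E k (g i) (g i')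

section

variable {R : ℕ} {A : Type u} {E : ℕ → A → A → Prop}

theorem mem_tau {k : ℕ} {a : A} {σ : Ty R k} {j : Fin (R + 1)} :
    j ∈ tau R E (k + 1) a σ ↔ Many R E k j a σ := Iff.rfl

theorem tau_eq_iff {B : Type v} {E' : ℕ → B → B → Prop} {k : ℕ} {a : A} {b : B} :
    tau R E (k + 1) a = tau R E' (k + 1) b ↔
      ∀ σ, ∀ j, j ≤ R → (Many R E k j a σ ↔ Many R E' k j b σ) := by
  constructor
  · intro h σ j hj
    have h1 : (⟨j, Nat.lt_succ_of_le hj⟩ : Fin (R + 1)) ∈ tau R E (k + 1) a σ ↔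
      (⟨j, Nat.lt_succ_of_le hj⟩ : Fin (R + 1)) ∈ tau R E' (k + 1) b σ := by rw [h]
    exact h1
  · intro h
    funext σ
    ext j
    exact h σ j (Nat.le_of_lt_succ j.2)

theorem Many.congr (hE : Nested E) {k j : ℕ} {a a' : A} {σ : Ty R k} (h : E (k + 1) a a')
    (hm : Many R E k j a σ) : Many R E k j a' σ := by
  obtain ⟨g, h1, h2⟩ := hm
  exact ⟨g, fun i => ⟨hE.trans _ _ _ _ (h1 i).1 h, (h1 i).2⟩, h2⟩

theorem tau_inv (hE : Nested E) {k : ℕ} {a a' : A} (h : E k a a') : tau R E k a = tau R E k a' := by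
  cases k with
  | zero => rfl
  | succ k =>
    rw [tau_eq_iff]
    intro σ j _
    exact ⟨fun hm => hm.congr hE h, fun hm => hm.congr hE (hE.symm _ _ _ h)⟩

/-- transfer of types along a faithful map with enough witnesses in the image -/
theorem tau_transfer {B : Type v} {E' : ℕ → B → B → Prop} (m : ℕ) (f : A → B)
    (hf : ∀ k, k ≤ m → ∀ a a', E k a a' ↔ E' k (f a) (f a'))
    (hrich : ∀ k, k < m → ∀ (a : A) (σ : Ty R k) (j : ℕ), j ≤ R → Many R E' k j (f a) σ →
      ∃ g : Fin j → A, (∀ i, E' (k + 1) (f (g i)) (f a) ∧ tau R E' k (f (g i)) = σ) ∧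
        ∀ i i', i ≠ i' → ¬ E' k (f (g i)) (f (g i'))) :
    ∀ k, k ≤ m → ∀ a, tau R E k a = tau R E' k (f a) := by
  intro k
  induction k with
  | zero => intro _ _; rfl
  | succ k ih =>
    intro hk a
    rw [tau_eq_iff]
    intro σ j hj
    constructor
    · rintro ⟨g, h1, h2⟩
      refine ⟨fun i => f (g i), fun i => ⟨(hf _ hk _ _).1 (h1 i).1, ?_⟩, fun i i' hii h3 => ?_⟩
      · rw [← ih (by omega)]; exact (h1 i).2
      · exact h2 i i' hii ((hf _ (by omega) _ _).2 h3)
    · intro hm
      obtain ⟨g, h1, h2⟩ := hrich k (by omega) a σ j hj hm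
      refine ⟨g, fun i => ⟨(hf _ hk _ _).2 (h1 i).1, ?_⟩, fun i i' hii h3 => ?_⟩
      · rw [ih (by omega)]; exact (h1 i).2
      · exact h2 i i' hii ((hf _ (by omega) _ _).1 h3)

/-- richness of a subset -/
def Rich (R : ℕ) {A : Type u} (E : ℕ → A → A → Prop) (F : Set A) (m : ℕ) : Prop :=
  ∀ k, k < m → ∀ x ∈ F, ∀ (σ : Ty R k) (j : ℕ), j ≤ R → Many R E k j x σ →
    ∃ g : Fin j → A, (∀ i, g i ∈ F ∧ E (k + 1) (g i) x ∧ tau R E k (g i) = σ) ∧
      ∀ i i', i ≠ i' → ¬ E k (g i) (g i')

theorem exists_rich (hE : Nested E) (m : ℕ) : ∀ a : A, ∃ F : Set A, F.Finite ∧ a ∈ F ∧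
    (∀ x ∈ F, E m x a) ∧ Rich R E F m := by
  classical
  induction m with
  | zero =>
    intro a
    refine ⟨{a}, Set.finite_singleton a, rfl, ?_, ?_⟩
    · intro x hx; rw [Set.mem_singleton_iff.1 hx]; exact hE.refl _ _
    · intro k hk; omega
  | succ m ih =>
    intro a
    choose F hfin hmem hE' hrich using ih
    -- chosen witnesses
    let g : (p : Ty R m × Fin (R + 1)) → Fin p.2.val → A := fun p =>
      if h : Many R E m p.2.val a p.1 then h.choose else fun _ => a
    have hg : ∀ p : Ty R m × Fin (R + 1), Many R E m p.2.val a p.1 →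
        (∀ i, E (m + 1) (g p i) a ∧ tau R E m (g p i) = p.1) ∧
          ∀ i i', i ≠ i' → ¬ E m (g p i) (g p i') := by
      intro p hp
      have : g p = hp.choose := dif_pos hp
      rw [this]
      exact hp.choose_spec
    have hga : ∀ p i, E (m + 1) (g p i) a := by
      intro p i
      by_cases hp : Many R E m p.2.val a p.1
      · exact ((hg p hp).1 i).1
      · have : g p = fun _ => a := dif_neg hp
        rw [this]; exact hE.refl _ _
    set G : Set A := F a ∪ ⋃ p : Ty R m × Fin (R + 1), ⋃ i, F (g p i) with hG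
    have hsub : ∀ x, x ∈ G → ∃ y, x ∈ F y ∧ F y ⊆ G ∧ E (m + 1) y a := by
      intro x hx
      rcases hx with hx | hx
      · exact ⟨a, hx, Set.subset_union_left, hE.refl _ _⟩
      · obtain ⟨p, hp⟩ := Set.mem_iUnion.1 hx
        obtain ⟨i, hi⟩ := Set.mem_iUnion.1 hp
        refine ⟨g p i, hi, ?_, hga p i⟩
        intro z hz
        exact Or.inr (Set.mem_iUnion.2 ⟨p, Set.mem_iUnion.2 ⟨i, hz⟩⟩)
    refine ⟨G, ?_, Or.inl (hmem a), ?_, ?_⟩
    · exact (hfin a).union (Set.finite_iUnion fun p => Set.finite_iUnion fun i => hfin _)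
    · intro x hx
      obtain ⟨y, hy, -, hya⟩ := hsub x hx
      exact hE.trans _ _ _ _ (hE.mono _ _ _ (hE' y x hy)) hya
    · intro k hk x hx σ j hj hm
      obtain ⟨y, hy, hyG, hya⟩ := hsub x hx
      rcases Nat.lt_succ_iff_lt_or_eq.1 hk with hk | rfl
      · obtain ⟨g', h1, h2⟩ := hrich y k hk x hy σ j hj hm
        exact ⟨g', fun i => ⟨hyG (h1 i).1, (h1 i).2⟩, h2⟩
      · have hxa : E (k + 1) x a := hE.trans _ _ _ _ (hE.mono _ _ _ (hE' y x hy)) hya
        have hma : Many R E k j a σ := hm.congr hE hxa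
        obtain ⟨h1, h2⟩ := hg (σ, ⟨j, Nat.lt_succ_of_le hj⟩) hma
        refine ⟨g (σ, ⟨j, Nat.lt_succ_of_le hj⟩), fun i => ⟨?_, ?_, (h1 i).2⟩, h2⟩
        · exact Or.inr (Set.mem_iUnion.2
            ⟨(σ, ⟨j, Nat.lt_succ_of_le hj⟩), Set.mem_iUnion.2 ⟨i, hmem _⟩⟩)
        · exact hE.trans _ _ _ _ (h1 i).1 (hE.symm _ _ _ hxa)

/-- descend lemma -/
theorem descend (hR : 1 ≤ R) {B : Type v} {E' : ℕ → B → B → Prop} (hE : Nested E)
    (hE' : Nested E') (x : A) :
    ∀ k (y₀ : B), tau R E k x = tau R E' k y₀ →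
      ∃ y, E' k y y₀ ∧ ∀ l, l ≤ k → tau R E l x = tau R E' l y := by
  intro k
  induction k with
  | zero =>
    intro y₀ _
    refine ⟨y₀, hE'.refl _ _, fun l hl => ?_⟩
    obtain rfl : l = 0 := by omega
    rfl
  | succ k ih =>
    intro y₀ h
    have h1 : Many R E k 1 x (tau R E k x) :=
      ⟨fun _ => x, fun _ => ⟨hE.refl _ _, rfl⟩, fun i i' hii => absurd (Subsingleton.elim _ _) hii⟩
    obtain ⟨g, hg, -⟩ := (tau_eq_iff.1 h _ 1 hR).1 h1
    obtain ⟨y, hy, hl⟩ := ih (g 0) (hg 0).2.symm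
    have hy' : E' (k + 1) y y₀ := hE'.trans _ _ _ _ (hE'.mono _ _ _ hy) (hg 0).1
    refine ⟨y, hy', fun l hl' => ?_⟩
    rcases Nat.lt_or_ge l (k + 1) with h2 | h2
    · exact hl l (by omega)
    · obtain rfl : l = k + 1 := by omega
      rw [h, tau_inv hE' hy']

end

/-- the invariant of the game -/
def Sim (R m : ℕ) {A : Type u} {B : Type v} (E : ℕ → A → A → Prop) (E' : ℕ → B → B → Prop)
    {n : ℕ} (a : Fin n → A) (b : Fin n → B) : Prop :=
  (∀ k, k ≤ m → ∀ i j, E k (a i) (a j) ↔ E' k (b i) (b j)) ∧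
  (∀ k, k ≤ m → ∀ i, tau R E k (a i) = tau R E' k (b i))

/-- every finite total configuration occurs as a full class -/
def Rep {B : Type v} (E' : ℕ → B → B → Prop) : Prop :=
  ∀ (m n : ℕ) (e : ℕ → Fin (n + 1) → Fin (n + 1) → Prop), Nested e → (∀ i j, e m i j) →
    ∃ f : Fin (n + 1) → B, (∀ k, k ≤ m → ∀ i j, E' k (f i) (f j) ↔ e k i j) ∧
      ∀ y, E' m y (f 0) → ∃ i, y = f i

theorem Rep.general {B : Type v} {E' : ℕ → B → B → Prop} (hE' : Nested E') (h : Rep E')
    (m : ℕ) {ι : Type w} [Finite ι] [Nonempty ι] (e : ℕ → ι → ι → Prop) (he : Nested e)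
    (htot : ∀ i j, e m i j) :
    ∃ f : ι → B, (∀ k, k ≤ m → ∀ i j, E' k (f i) (f j) ↔ e k i j) ∧
      ∀ y i, E' m y (f i) → ∃ j, y = f j := by
  obtain ⟨n, ⟨φ⟩⟩ := Finite.exists_equiv_fin ι
  obtain ⟨n, rfl⟩ : ∃ n', n = n' + 1 := by
    cases n with
    | zero => exact (φ (Classical.arbitrary ι)).elim0
    | succ n' => exact ⟨n', rfl⟩
  obtain ⟨f, h1, h2⟩ := h m n (fun k i j => e k (φ.symm i) (φ.symm j))
    ⟨fun k x => he.refl _ _, fun k x y => he.symm _ _ _, fun k x y z => he.trans _ _ _ _,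
      fun k x y => he.mono _ _ _, fun x y hxy => φ.symm.injective (he.eq _ _ hxy)⟩
    (fun i j => htot _ _)
  refine ⟨fun i => f (φ i), fun k hk i j => ?_, fun y i hy => ?_⟩
  · rw [h1 k hk]; simp
  · have h3 : E' m (f (φ i)) (f 0) := (h1 m le_rfl _ _).2 (htot _ _)
    obtain ⟨j, hj⟩ := h2 y (hE'.trans _ _ _ _ hy h3)
    exact ⟨φ.symm j, by rw [hj]; simp⟩

theorem step {R m : ℕ} {A : Type u} {B : Type v} {E : ℕ → A → A → Prop} {E' : ℕ → B → B → Prop}
    (hE : Nested E) (hE' : Nested E') (hrep : Rep E') {n : ℕ} (hn : n < R)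
    {a : Fin n → A} {b : Fin n → B} (h : Sim R m E E' a b) (x : A) :
    ∃ y : B, (∀ k, k ≤ m → ∀ i, E k x (a i) ↔ E' k y (b i)) ∧
      ∀ k, k ≤ m → tau R E k x = tau R E' k y := by
  classical
  obtain ⟨hp, ht⟩ := h
  by_cases hex : ∃ k, k ≤ m ∧ ∃ i, E k x (a i)
  · -- minimal level
    obtain ⟨hk, i, hi⟩ := Nat.find_spec hex
    have hmin : ∀ l, l < Nat.find hex → ∀ j, ¬ E l x (a j) := by
      intro l hl j hj
      exact Nat.find_min hex hl ⟨by omega, j, hj⟩
    generalize Nat.find hex = k at hk hi hmin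
    cases k with
    | zero =>
      have hx : x = a i := hE.eq _ _ hi
      subst hx
      exact ⟨b i, fun k hk j => hp k hk i j, fun k hk => ht k hk i⟩
    | succ k =>
      set σ := tau R E k x with hσ
      let J : Finset (Fin n) := Finset.univ.filter fun j => E (k + 1) (a j) (a i) ∧
        tau R E k (a j) = σ
      let T : Finset (Fin n) := J.filter fun j => ∀ j' ∈ J, E k (a j) (a j') → j ≤ j'
      have hTJ : ∀ j ∈ T, j ∈ J := fun j hj => (Finset.mem_filter.1 hj).1
      have hT1 : ∀ j ∈ J, ∃ j' ∈ T, E k (a j) (a j') := by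
        intro j hj
        let S : Finset (Fin n) := J.filter fun j' => E k (a j) (a j')
        have hS : S.Nonempty := ⟨j, Finset.mem_filter.2 ⟨hj, hE.refl _ _⟩⟩
        have hm := Finset.mem_filter.1 (S.min'_mem hS)
        refine ⟨S.min' hS, Finset.mem_filter.2 ⟨hm.1, fun j' hj' hjj' => ?_⟩, hm.2⟩
        exact S.min'_le _ (Finset.mem_filter.2 ⟨hj', hE.trans _ _ _ _ hm.2 hjj'⟩)
      have hT2 : ∀ j ∈ T, ∀ j' ∈ T, E k (a j) (a j') → j = j' := by
        intro j hj j' hj' hjj'
        exact le_antisymm ((Finset.mem_filter.1 hj).2 j' (hTJ _ hj') hjj')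
          ((Finset.mem_filter.1 hj').2 j (hTJ _ hj) (hE.symm _ _ _ hjj'))
      have hTc : T.card ≤ n := by
        simpa using Finset.card_le_univ T
      let φ := T.equivFin
      have hmany : Many R E k (T.card + 1) (a i) σ := by
        refine ⟨Fin.snoc (α := fun _ => A) (fun s => a (φ.symm s)) x, ?_, ?_⟩
        · intro s
          refine Fin.lastCases ?_ (fun s => ?_) s
          · rw [Fin.snoc_last]
            exact ⟨hi, rfl⟩
          · rw [Fin.snoc_castSucc]
            exact (Finset.mem_filter.1 (hTJ _ (φ.symm s).2)).2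
        · intro s s'
          refine Fin.lastCases ?_ (fun s => ?_) s
          · refine Fin.lastCases ?_ (fun s' => ?_) s'
            · intro h; exact absurd rfl h
            · intro _
              rw [Fin.snoc_last, Fin.snoc_castSucc]
              exact hmin k (by omega) _
          · refine Fin.lastCases ?_ (fun s' => ?_) s'
            · intro _
              rw [Fin.snoc_last, Fin.snoc_castSucc]
              intro h3
              exact hmin k (by omega) _ (hE.symm _ _ _ h3)
            · intro hss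
              rw [Fin.snoc_castSucc, Fin.snoc_castSucc]
              intro h3
              apply hss
              have := hT2 _ (φ.symm s).2 _ (φ.symm s').2 h3
              rw [φ.symm.injective (Subtype.ext this)]
      have hmany' : Many R E' k (T.card + 1) (b i) σ :=
        (tau_eq_iff.1 (ht (k + 1) hk i) σ (T.card + 1) (by omega)).1 hmany
      obtain ⟨g, hg1, hg2⟩ := hmany'
      have hpig : ∃ s, ∀ j ∈ T, ¬ E' k (g s) (b j) := by
        by_contra hcon
        push Not at hcon
        choose c hcT hc using hcon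
        have hinj : Function.Injective fun s => (⟨c s, hcT s⟩ : T) := by
          intro s s' hss
          by_contra hne
          have h4 : c s = c s' := congrArg Subtype.val hss
          apply hg2 s s' hne
          have h5 := hc s'
          rw [← h4] at h5
          exact hE'.trans _ _ _ _ (hc s) (hE'.symm _ _ _ h5)
        have := Fintype.card_le_of_injective _ hinj
        simp at this
      obtain ⟨s, hs⟩ := hpig
      have hs' : ∀ j, ¬ E' k (g s) (b j) := by
        intro j hj
        have hjJ : j ∈ J := by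
          refine Finset.mem_filter.2 ⟨Finset.mem_univ _, ?_, ?_⟩
          · rw [hp _ hk]
            exact hE'.trans _ _ _ _ (hE'.mono _ _ _ (hE'.symm _ _ _ hj)) (hg1 s).1
          · rw [ht k (by omega), ← tau_inv hE' hj]
            exact (hg1 s).2
        obtain ⟨j', hj', hjj'⟩ := hT1 j hjJ
        exact hs j' hj' (hE'.trans _ _ _ _ hj ((hp k (by omega) _ _).1 hjj'))
      obtain ⟨y, hy, hyt⟩ := descend (by omega) hE hE' x k (g s) (hg1 s).2.symm
      have hyb : E' (k + 1) y (b i) := hE'.trans _ _ _ _ (hE'.mono _ _ _ hy) (hg1 s).1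
      refine ⟨y, fun l hl j => ?_, fun l hl => ?_⟩
      · rcases Nat.lt_or_ge l (k + 1) with h6 | h6
        · constructor
          · intro h7; exact absurd h7 (hmin l h6 j)
          · intro h7
            exact absurd (hE'.trans _ _ _ _ (hE'.symm _ _ _ hy)
              (hE'.le (Nat.lt_succ_iff.1 h6) h7)) (hs' j)
        · have h8 : E l x (a i) := hE.le h6 hi
          have h9 : E' l y (b i) := hE'.le h6 hyb
          constructor
          · intro h7
            exact hE'.trans _ _ _ _ h9 ((hp l hl _ _).1 (hE.trans _ _ _ _ (hE.symm _ _ _ h8) h7))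
          · intro h7
            exact hE.trans _ _ _ _ h8 ((hp l hl _ _).2 (hE'.trans _ _ _ _ (hE'.symm _ _ _ h9) h7))
      · rcases Nat.lt_or_ge l (k + 1) with h6 | h6
        · exact hyt l (by omega)
        · rw [tau_inv hE (hE.le h6 hi), tau_inv hE' (hE'.le h6 hyb)]
          exact ht l hl i
  · -- new class at level `m`
    push Not at hex
    obtain ⟨F, hFfin, hxF, hFx, hrich⟩ := exists_rich (R := R) hE m x
    have : Finite F := hFfin
    have : Nonempty F := ⟨⟨x, hxF⟩⟩
    let e : ℕ → (Fin (n + 1) × F) → (Fin (n + 1) × F) → Prop := fun k p q =>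
      (k ≤ m ∧ p.1 = q.1 ∧ E k p.2 q.2) ∨ m < k
    have he : Nested e := by
      refine ⟨?_, ?_, ?_, ?_, ?_⟩
      · intro k p
        rcases Nat.lt_or_ge m k with h1 | h1
        · exact Or.inr h1
        · exact Or.inl ⟨h1, rfl, hE.refl _ _⟩
      · rintro k p q (⟨h1, h2, h3⟩ | h1)
        · exact Or.inl ⟨h1, h2.symm, hE.symm _ _ _ h3⟩
        · exact Or.inr h1
      · rintro k p q r (⟨h1, h2, h3⟩ | h1) h4
        · rcases h4 with ⟨h5, h6, h7⟩ | h5
          · exact Or.inl ⟨h1, h2.trans h6, hE.trans _ _ _ _ h3 h7⟩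
          · exact Or.inr h5
        · exact Or.inr h1
      · rintro k p q (⟨h1, h2, h3⟩ | h1)
        · rcases Nat.lt_or_ge m (k + 1) with h4 | h4
          · exact Or.inr h4
          · exact Or.inl ⟨h4, h2, hE.mono _ _ _ h3⟩
        · exact Or.inr (by omega)
      · rintro p q (⟨h1, h2, h3⟩ | h1)
        · exact Prod.ext h2 (Subtype.ext (hE.eq _ _ h3))
        · omega
    obtain ⟨f, hf1, hf2⟩ := hrep.general hE' (m + 1) e he (fun p q => Or.inr (by omega))
    have hfE : ∀ k, k ≤ m → ∀ p q, E' k (f p) (f q) ↔ p.1 = q.1 ∧ E k p.2 q.2 := by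
      intro k hk p q
      rw [hf1 k (by omega)]
      constructor
      · rintro (⟨_, h2⟩ | h2)
        · exact h2
        · omega
      · intro h2; exact Or.inl ⟨hk, h2⟩
    -- types
    have ht1 : ∀ k, k ≤ m → ∀ z : F, tau R (fun k (p q : F) => E k p q) k z = tau R E k (z : A) := by
      refine tau_transfer m (fun z : F => (z : A)) (fun k _ a a' => Iff.rfl) ?_
      intro k hk z σ j hj hm
      obtain ⟨g, h1, h2⟩ := hrich k hk z z.2 σ j hj hm
      exact ⟨fun i => ⟨g i, (h1 i).1⟩, fun i => (h1 i).2, h2⟩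
    have ht2 : ∀ c : Fin (n + 1), ∀ k, k ≤ m → ∀ z : F,
        tau R (fun k (p q : F) => E k p q) k z = tau R E' k (f (c, z)) := by
      intro c
      refine tau_transfer m (fun z : F => f (c, z)) (fun k hk a a' => ?_) ?_
      · rw [hfE k hk]; simp
      · intro k hk z σ j hj hm
        obtain ⟨g, h1, h2⟩ := hm
        have h3 : ∀ i, ∃ z' : F, g i = f (c, z') := by
          intro i
          obtain ⟨⟨c', z'⟩, hz'⟩ := hf2 (g i) (c, z) (hE'.le (by omega) (h1 i).1)
          have h4 := (h1 i).1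
          rw [hz', hfE (k + 1) (by omega)] at h4
          obtain ⟨h5, -⟩ := h4
          simp only at h5
          subst h5
          exact ⟨z', hz'⟩
        choose g' hg' using h3
        refine ⟨g', fun i => ?_, fun i i' hii => ?_⟩
        · rw [← hg' i]; exact h1 i
        · rw [← hg' i, ← hg' i']; exact h2 i i' hii
    -- pigeonhole
    have hpig : ∃ c : Fin (n + 1), ∀ i, ¬ E' m (f (c, ⟨x, hxF⟩)) (b i) := by
      by_contra hcon
      push Not at hcon
      choose d hd using hcon
      have hinj : Function.Injective d := by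
        intro c c' hcc
        have h5 := hd c'
        rw [← hcc] at h5
        have h6 := hE'.trans _ _ _ _ (hd c) (hE'.symm _ _ _ h5)
        rw [hfE m le_rfl] at h6
        exact h6.1
      have := Fintype.card_le_of_injective _ hinj
      simp at this
    obtain ⟨c, hc⟩ := hpig
    refine ⟨f (c, ⟨x, hxF⟩), fun k hk i => ?_, fun k hk => ?_⟩
    · constructor
      · intro h1; exact absurd h1 (hex k hk i)
      · intro h1; exact absurd (hE'.le hk h1) (hc i)
    · rw [← ht2 c k hk ⟨x, hxF⟩, ht1 k hk ⟨x, hxF⟩]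

end Pool.Agent.Q202.UT
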