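import Mathlib
import Pool.Agent.Q202.UT.Types

/-!
# The language of nested equivalence relations, the classes `∀_n`, `∃_n`, and elementary
equivalence of structures in which all finite configurations occur as full classes
-/

namespace Pool.Agent.Q202.UT

open FirstOrder FirstOrder.Language

universe u v w

/-- `Hier true n` is the class of `∀_n`-formulas, `Hier false n` the class of `∃_n`-formulas:
`∀_0 = ∃_0` = quantifier-free; a `∀_{n+1}`-formula is a (possibly empty) block of universal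
quantifiers followed by an `∃_n`-formula, and dually. -/
inductive Hier {L : FirstOrder.Language.{u, v}} {α : Type w} :
    Bool → ℕ → ∀ {l : ℕ}, L.BoundedFormula α l → Prop
  | qf (b : Bool) {l : ℕ} {φ : L.BoundedFormula α l} : φ.IsQF → Hier b 0 φ
  | step {b : Bool} {n l : ℕ} {φ : L.BoundedFormula α l} : Hier (!b) n φ → Hier b (n + 1) φ
  | all {n l : ℕ} {φ : L.BoundedFormula α (l + 1)} :
      Hier true (n + 1) φ → Hier true (n + 1) φ.all
  | ex {n l : ℕ} {φ : L.BoundedFormula α (l + 1)} :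
      Hier false (n + 1) φ → Hier false (n + 1) φ.ex

theorem hier_exs {L : FirstOrder.Language.{u, v}} {α : Type w} {n : ℕ} :
    ∀ (l : ℕ) (φ : L.BoundedFormula α l), Hier false (n + 1) φ →
      Hier (L := L) (α := α) (l := 0) false (n + 1) φ.exs := by
  intro l
  induction l with
  | zero => intro φ h; exact h
  | succ l ih => intro φ h; exact ih φ.ex h.ex

/-- relation symbols `E_k` -/
inductive Rl : ℕ → Type
  | E : ℕ → Rl 2

/-- the language `{E_k : k ∈ ℕ}` of binary relation symbols -/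
def LE : FirstOrder.Language.{0, 0} := ⟨fun _ => Empty, Rl⟩

/-- the relations of a structure -/
def rE (N : Type u) [LE.Structure N] (k : ℕ) (x y : N) : Prop :=
  Structure.RelMap (L := LE) (Rl.E k : LE.Relations 2) ![x, y]

/-- the structure given by relations -/
@[reducible] def mkStr {A : Type u} (E : ℕ → A → A → Prop) : LE.Structure A where
  funMap := fun f => f.elim
  RelMap := fun {n} r => match n, r with
    | _, Rl.E k => fun v => E k (v 0) (v 1)

/-! ### elementary equivalence -/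

theorem Sim.symm {R m : ℕ} {A : Type u} {B : Type v} {E : ℕ → A → A → Prop}
    {E' : ℕ → B → B → Prop} {n : ℕ} {a : Fin n → A} {b : Fin n → B} (h : Sim R m E E' a b) :
    Sim R m E' E b a :=
  ⟨fun k hk i j => (h.1 k hk i j).symm, fun k hk i => (h.2 k hk i).symm⟩

theorem Sim.snoc {R m : ℕ} {A : Type u} {B : Type v} {E : ℕ → A → A → Prop}
    {E' : ℕ → B → B → Prop} (hE : Nested E) (hE' : Nested E') {n : ℕ} {a : Fin n → A}
    {b : Fin n → B} (h : Sim R m E E' a b) {x : A} {y : B}
    (h1 : ∀ k, k ≤ m → ∀ i, E k x (a i) ↔ E' k y (b i))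
    (h2 : ∀ k, k ≤ m → tau R E k x = tau R E' k y) :
    Sim R m E E' (Fin.snoc (α := fun _ => A) a x) (Fin.snoc (α := fun _ => B) b y) := by
  constructor
  · intro k hk i j
    refine Fin.lastCases ?_ (fun i => ?_) i
    · refine Fin.lastCases ?_ (fun j => ?_) j
      · rw [Fin.snoc_last, Fin.snoc_last]
        exact iff_of_true (hE.refl _ _) (hE'.refl _ _)
      · rw [Fin.snoc_last, Fin.snoc_last, Fin.snoc_castSucc, Fin.snoc_castSucc]
        exact h1 k hk j
    · refine Fin.lastCases ?_ (fun j => ?_) j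
      · rw [Fin.snoc_last, Fin.snoc_last, Fin.snoc_castSucc, Fin.snoc_castSucc]
        exact ⟨fun h3 => hE'.symm _ _ _ ((h1 k hk i).1 (hE.symm _ _ _ h3)),
          fun h3 => hE.symm _ _ _ ((h1 k hk i).2 (hE'.symm _ _ _ h3))⟩
      · rw [Fin.snoc_castSucc, Fin.snoc_castSucc, Fin.snoc_castSucc, Fin.snoc_castSucc]
        exact h.1 k hk i j
  · intro k hk i
    refine Fin.lastCases ?_ (fun i => ?_) i
    · rw [Fin.snoc_last, Fin.snoc_last]; exact h2 k hk
    · rw [Fin.snoc_castSucc, Fin.snoc_castSucc]; exact h.2 k hk i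

theorem term_eq {l : ℕ} (t : LE.Term (Empty ⊕ Fin l)) : ∃ i, t = Term.var (Sum.inr i) := by
  cases t with
  | var s =>
    cases s with
    | inl e => exact e.elim
    | inr i => exact ⟨i, rfl⟩
  | func f ts => exact Empty.elim f

theorem rel_iff (N : Type u) [LE.Structure N] (k : ℕ) (v : Fin 2 → N) :
    Structure.RelMap (L := LE) (Rl.E k : LE.Relations 2) v ↔ rE N k (v 0) (v 1) := by
  unfold rE
  have : v = ![v 0, v 1] := by
    funext i; fin_cases i <;> rfl
  rw [← this]

section

variable (N₁ : Type u) (N₂ : Type v) [LE.Structure N₁] [LE.Structure N₂]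
  (h₁ : Nested (rE N₁)) (h₂ : Nested (rE N₂)) (r₁ : Rep (rE N₁)) (r₂ : Rep (rE N₂))

include h₁ h₂ r₁ r₂

theorem transfer {l : ℕ} (φ : LE.BoundedFormula Empty l) :
    ∃ m₀ R₀, ∀ m R, m₀ ≤ m → R₀ ≤ R → ∀ (a : Fin l → N₁) (b : Fin l → N₂),
      Sim R m (rE N₁) (rE N₂) a b → (φ.Realize default a ↔ φ.Realize default b) := by
  induction φ with
  | falsum => exact ⟨0, 0, fun m R _ _ a b _ => Iff.rfl⟩
  | equal t₁ t₂ =>
    obtain ⟨i, rfl⟩ := term_eq t₁
    obtain ⟨j, rfl⟩ := term_eq t₂
    refine ⟨0, 0, fun m R _ _ a b h => ?_⟩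
    show a i = a j ↔ b i = b j
    have h3 := h.1 0 (Nat.zero_le _) i j
    constructor
    · intro h4
      rw [h4] at h3
      exact h₂.eq _ _ (h3.1 (h₁.refl _ _))
    · intro h4
      rw [h4] at h3
      exact h₁.eq _ _ (h3.2 (h₂.refl _ _))
  | rel r ts =>
    cases r with
    | E k =>
      obtain ⟨i, hi⟩ := term_eq (ts 0)
      obtain ⟨j, hj⟩ := term_eq (ts 1)
      refine ⟨k, 0, fun m R hm _ a b h => ?_⟩
      have e1 : ∀ (N : Type _) [LE.Structure N] (c : Fin _ → N),
          (BoundedFormula.rel (L := LE) (Rl.E k : LE.Relations 2) ts).Realize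
            (default : Empty → N) c ↔ rE N k (c i) (c j) := by
        intro N _ c
        show Structure.RelMap (L := LE) (Rl.E k : LE.Relations 2)
          (fun s => (ts s).realize (Sum.elim default c)) ↔ _
        rw [rel_iff, hi, hj]
        exact Iff.rfl
      have e2 : ∀ (N : Type _) [LE.Structure N] (c : Fin _ → N),
          (BoundedFormula.rel (L := LE) (Rl.E k : LE.Relations 2) ts).Realize
            (default : Empty → N) c ↔ rE N k (c i) (c j) := by
        intro N _ c
        show Structure.RelMap (L := LE) (Rl.E k : LE.Relations 2)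
          (fun s => (ts s).realize (Sum.elim default c)) ↔ _
        rw [rel_iff, hi, hj]
        exact Iff.rfl
      exact (e1 N₁ a).trans ((h.1 k hm i j).trans (e2 N₂ b).symm)
  | imp φ ψ ihφ ihψ =>
    obtain ⟨m₁, R₁, H₁⟩ := ihφ
    obtain ⟨m₂, R₂, H₂⟩ := ihψ
    refine ⟨max m₁ m₂, max R₁ R₂, fun m R hm hR a b h => ?_⟩
    exact imp_congr
      (H₁ m R (le_trans (le_max_left _ _) hm) (le_trans (le_max_left _ _) hR) a b h)
      (H₂ m R (le_trans (le_max_right _ _) hm) (le_trans (le_max_right _ _) hR) a b h)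
  | @all l φ ih =>
    obtain ⟨m₁, R₁, H₁⟩ := ih
    refine ⟨m₁, max R₁ (l + 1), fun m R hm hR a b h => ?_⟩
    have hR1 : R₁ ≤ R := le_trans (le_max_left _ _) hR
    have hR2 := le_trans (le_max_right _ _) hR
    constructor
    · intro h3 y
      obtain ⟨x, hx1, hx2⟩ := step h₂ h₁ r₁ hR2 h.symm y
      have h4 := Sim.snoc h₂ h₁ h.symm hx1 hx2
      exact (H₁ m R hm hR1 _ _ h4.symm).1 (h3 x)
    · intro h3 x
      obtain ⟨y, hy1, hy2⟩ := step h₁ h₂ r₂ hR2 h x
      have h4 := Sim.snoc h₁ h₂ h hy1 hy2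
      exact (H₁ m R hm hR1 _ _ h4).2 (h3 y)

theorem elem_equiv (σ : LE.Sentence) : N₁ ⊨ σ ↔ N₂ ⊨ σ := by
  obtain ⟨m₀, R₀, H⟩ := transfer N₁ N₂ h₁ h₂ r₁ r₂ σ
  have := H m₀ R₀ le_rfl le_rfl default default
    ⟨fun k _ i => i.elim0, fun k _ i => i.elim0⟩
  exact this

end

/-! ### the axioms -/

section

variable {α : Type w} {l : ℕ}

/-- the formula `t₁ E_k t₂` -/
def re (k : ℕ) (t₁ t₂ : LE.Term (α ⊕ Fin l)) : LE.BoundedFormula α l :=
  Relations.boundedFormula₂ (Rl.E k : LE.Relations 2) t₁ t₂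

theorem realize_re {N : Type u} [LE.Structure N] (k : ℕ) (t₁ t₂ : LE.Term (α ⊕ Fin l))
    (v : α → N) (xs : Fin l → N) : (re k t₁ t₂).Realize v xs ↔
      rE N k (t₁.realize (Sum.elim v xs)) (t₂.realize (Sum.elim v xs)) := by
  unfold re rE
  exact BoundedFormula.realize_rel₂

theorem qf_re (k : ℕ) (t₁ t₂ : LE.Term (α ⊕ Fin l)) : (re k t₁ t₂).IsQF :=
  (BoundedFormula.IsAtomic.rel _ _).isQF

theorem qf_eq (t₁ t₂ : LE.Term (α ⊕ Fin l)) : (t₁ =' t₂).IsQF :=
  (BoundedFormula.IsAtomic.equal _ _).isQF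

end

def reflS (k : ℕ) : LE.Sentence := ∀' re k &0 &0
def symmS (k : ℕ) : LE.Sentence := ∀' ∀' (re k &0 &1 ⟹ re k &1 &0)
def transS (k : ℕ) : LE.Sentence := ∀' ∀' ∀' (re k &0 &1 ⟹ (re k &1 &2 ⟹ re k &0 &2))
def monoS (k : ℕ) : LE.Sentence := ∀' ∀' (re k &0 &1 ⟹ re (k + 1) &0 &1)
def eqS : LE.Sentence := ∀' ∀' (re 0 &0 &1 ⟹ &0 =' &1)

section

variable (N : Type u) [LE.Structure N]

theorem realize_reflS (k : ℕ) : N ⊨ reflS k ↔ ∀ x : N, rE N k x x := by
  simp only [reflS, Sentence.Realize, Formula.Realize, BoundedFormula.realize_all, realize_re]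
  exact Iff.rfl

theorem realize_symmS (k : ℕ) : N ⊨ symmS k ↔ ∀ x y : N, rE N k x y → rE N k y x := by
  simp only [symmS, Sentence.Realize, Formula.Realize, BoundedFormula.realize_all,
    BoundedFormula.realize_imp, realize_re]
  exact Iff.rfl

theorem realize_transS (k : ℕ) : N ⊨ transS k ↔
    ∀ x y z : N, rE N k x y → rE N k y z → rE N k x z := by
  simp only [transS, Sentence.Realize, Formula.Realize, BoundedFormula.realize_all,
    BoundedFormula.realize_imp, realize_re]
  exact Iff.rfl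

theorem realize_monoS (k : ℕ) : N ⊨ monoS k ↔ ∀ x y : N, rE N k x y → rE N (k + 1) x y := by
  simp only [monoS, Sentence.Realize, Formula.Realize, BoundedFormula.realize_all,
    BoundedFormula.realize_imp, realize_re]
  exact Iff.rfl

theorem realize_eqS : N ⊨ eqS ↔ ∀ x y : N, rE N 0 x y → x = y := by
  simp only [eqS, Sentence.Realize, Formula.Realize, BoundedFormula.realize_all,
    BoundedFormula.realize_imp, realize_re, BoundedFormula.realize_bdEqual]
  exact Iff.rfl

end

theorem hier_reflS (k : ℕ) : Hier false 2 (reflS k) :=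
  .step (.all (.step (.qf _ (qf_re _ _ _))))
theorem hier_symmS (k : ℕ) : Hier false 2 (symmS k) :=
  .step (.all (.all (.step (.qf _ ((qf_re _ _ _).imp (qf_re _ _ _))))))
theorem hier_transS (k : ℕ) : Hier false 2 (transS k) :=
  .step (.all (.all (.all (.step (.qf _ ((qf_re _ _ _).imp ((qf_re _ _ _).imp (qf_re _ _ _))))))))
theorem hier_monoS (k : ℕ) : Hier false 2 (monoS k) :=
  .step (.all (.all (.step (.qf _ ((qf_re _ _ _).imp (qf_re _ _ _))))))
theorem hier_eqS : Hier false 2 eqS :=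
  .step (.all (.all (.step (.qf _ ((qf_re _ _ _).imp (qf_eq _ _))))))

section

variable (m n : ℕ) (e : ℕ → Fin (n + 1) → Fin (n + 1) → Prop)

/-- variable `x_i` among `x_0, …, x_n, y` -/
def xv (i : Fin (n + 1)) : LE.Term (Empty ⊕ Fin (n + 2)) := Term.var (Sum.inr i.castSucc)
/-- variable `y` -/
def yv : LE.Term (Empty ⊕ Fin (n + 2)) := Term.var (Sum.inr (Fin.last _))

open Classical in
/-- literal `±(x_i E_k x_j)` -/
noncomputable def lit (p : ℕ × Fin (n + 1) × Fin (n + 1)) :
    LE.BoundedFormula Empty (n + 2) :=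
  if e p.1 p.2.1 p.2.2 then re p.1 (xv n p.2.1) (xv n p.2.2)
  else ∼(re p.1 (xv n p.2.1) (xv n p.2.2))

/-- all index triples with level `≤ m` -/
noncomputable def triples : List (ℕ × Fin (n + 1) × Fin (n + 1)) :=
  (Finset.range (m + 1) ×ˢ (Finset.univ : Finset (Fin (n + 1) × Fin (n + 1)))).toList

/-- quantifier-free body of the configuration sentence -/
noncomputable def confBody : LE.BoundedFormula Empty (n + 2) :=
  (((triples m n).map (lit n e)).foldr (· ⊓ ·) ⊤) ⊓
  (re m (yv n) (xv n 0) ⟹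
    (((Finset.univ : Finset (Fin (n + 1))).toList.map fun i => (yv n =' xv n i)).foldr
      (· ⊔ ·) ⊥))

/-- the configuration `e` occurs as a full `E_m`-class -/
noncomputable def confS : LE.Sentence := (∀' confBody m n e).exs

theorem qf_foldr_inf {l : ℕ} (L' : List (LE.BoundedFormula Empty l)) (h : ∀ φ ∈ L', φ.IsQF) :
    (L'.foldr (· ⊓ ·) ⊤).IsQF := by
  induction L' with
  | nil => exact BoundedFormula.IsQF.top
  | cons a t ih =>
    exact (h a (by simp)).inf (ih fun φ hφ => h φ (List.mem_cons_of_mem _ hφ))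

theorem qf_foldr_sup {l : ℕ} (L' : List (LE.BoundedFormula Empty l)) (h : ∀ φ ∈ L', φ.IsQF) :
    (L'.foldr (· ⊔ ·) ⊥).IsQF := by
  induction L' with
  | nil => exact BoundedFormula.isQF_bot
  | cons a t ih =>
    exact (h a (by simp)).sup (ih fun φ hφ => h φ (List.mem_cons_of_mem _ hφ))

theorem hier_confS : Hier false 2 (confS m n e) := by
  refine hier_exs _ _ (.step (.all (.step (.qf _ ?_))))
  refine BoundedFormula.IsQF.inf (qf_foldr_inf _ ?_)
    (BoundedFormula.IsQF.imp (qf_re _ _ _) (qf_foldr_sup _ ?_))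
  · intro φ hφ
    obtain ⟨p, -, rfl⟩ := List.mem_map.1 hφ
    unfold lit
    split_ifs
    · exact qf_re _ _ _
    · exact (qf_re _ _ _).not
  · intro φ hφ
    obtain ⟨p, -, rfl⟩ := List.mem_map.1 hφ
    exact qf_eq _ _

theorem realize_confS (N : Type u) [LE.Structure N] : N ⊨ confS m n e ↔
    ∃ f : Fin (n + 1) → N, ∀ y, ((∀ k, k ≤ m → ∀ i j, rE N k (f i) (f j) ↔ e k i j) ∧
      (rE N m y (f 0) → ∃ i, y = f i)) := by
  classical
  unfold confS Sentence.Realize
  rw [BoundedFormula.realize_exs]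
  refine exists_congr fun f => ?_
  rw [BoundedFormula.realize_all]
  refine forall_congr' fun y => ?_
  have hx : ∀ i, (xv n i).realize (Sum.elim (default : Empty → N)
      (Fin.snoc (α := fun _ => N) f y)) = f i := by
    intro i
    show Fin.snoc (α := fun _ => N) f y i.castSucc = f i
    rw [Fin.snoc_castSucc]
  have hy : (yv n).realize (Sum.elim (default : Empty → N)
      (Fin.snoc (α := fun _ => N) f y)) = y := by
    show Fin.snoc (α := fun _ => N) f y (Fin.last _) = y
    rw [Fin.snoc_last]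
  unfold confBody
  rw [BoundedFormula.realize_inf, BoundedFormula.realize_imp, BoundedFormula.realize_foldr_inf,
    BoundedFormula.realize_foldr_sup, realize_re, hx, hy]
  refine and_congr ?_ (imp_congr Iff.rfl ?_)
  · constructor
    · intro h k hk i j
      have h1 := h (lit n e (k, i, j)) (List.mem_map.2 ⟨(k, i, j), by
        simp [triples, hk], rfl⟩)
      unfold lit at h1
      split_ifs at h1 with h2
      · rw [realize_re, hx, hx] at h1
        exact iff_of_true h1 h2
      · rw [BoundedFormula.realize_not, realize_re, hx, hx] at h1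
        exact iff_of_false h1 h2
    · intro h φ hφ
      obtain ⟨⟨k, i, j⟩, hp, rfl⟩ := List.mem_map.1 hφ
      have hk : k ≤ m := by
        simp [triples] at hp
        exact hp
      unfold lit
      split_ifs with h2
      · rw [realize_re, hx, hx]
        exact (h k hk i j).2 h2
      · rw [BoundedFormula.realize_not, realize_re, hx, hx]
        exact fun h3 => h2 ((h k hk i j).1 h3)
  · constructor
    · rintro ⟨φ, hφ, h1⟩
      obtain ⟨i, -, rfl⟩ := List.mem_map.1 hφ
      rw [BoundedFormula.realize_bdEqual, hx, hy] at h1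
      exact ⟨i, h1⟩
    · rintro ⟨i, hi⟩
      refine ⟨yv n =' xv n i, List.mem_map.2 ⟨i, by simp, rfl⟩, ?_⟩
      rw [BoundedFormula.realize_bdEqual, hx, hy]
      exact hi

end

/-- a structure whose true `∃_2`-sentences include the axioms is good -/
theorem good_of_realize (N : Type u) [LE.Structure N] [Nonempty N]
    (h1 : ∀ k, N ⊨ reflS k) (h2 : ∀ k, N ⊨ symmS k)
    (h3 : ∀ k, N ⊨ transS k) (h4 : ∀ k, N ⊨ monoS k) (h5 : N ⊨ eqS)
    (h6 : ∀ m n e, Nested e → (∀ i j, e m i j) → N ⊨ confS m n e) :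
    Nested (rE N) ∧ Rep (rE N) := by
  refine ⟨⟨fun k => (realize_reflS N k).1 (h1 k), fun k => (realize_symmS N k).1 (h2 k),
    fun k => (realize_transS N k).1 (h3 k), fun k => (realize_monoS N k).1 (h4 k),
    (realize_eqS N).1 h5⟩, ?_⟩
  intro m n e he htot
  obtain ⟨f, hf⟩ := (realize_confS m n e N).1 (h6 m n e he htot)
  exact ⟨f, (hf (Classical.arbitrary N)).1, fun y => (hf y).2⟩

end Pool.Agent.Q202.UT
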