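import Mathlib
import Pool.Agent.Q202.UT.Logic

/-!
# The model: all finite configurations plus the space `X` of finitely supported sequences
-/

namespace Pool.Agent.Q202.UT

open FirstOrder FirstOrder.Language

universe u v w

/-- a finite nested configuration -/
structure Conf where
  n : ℕ
  e : ℕ → Fin (n + 1) → Fin (n + 1) → Prop
  nested : Nested e

/-- finitely supported `x : ℕ → ℕ` such that `x (k+1)` odd implies `x k` even for `k ≥ 1`, and
`x 1` odd implies `x 0 = 0` -/
structure X where
  x : ℕ → ℕ
  fin : ∃ K, ∀ k, K ≤ k → x k = 0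
  alt : ∀ k, 1 ≤ k → Odd (x (k + 1)) → Even (x k)
  bot : Odd (x 1) → x 0 = 0

theorem X.ext' {a b : X} (h : ∀ k, a.x k = b.x k) : a = b := by
  cases a; cases b
  congr
  funext k
  exact h k

/-- universe of the model -/
def MS : Type := (Σ c : Conf, Fin (c.n + 1)) ⊕ X

/-- the relations `E_k` of the model -/
inductive EM (k : ℕ) : MS → MS → Prop
  | conf (c : Conf) (i j : Fin (c.n + 1)) : c.e k i j → EM k (Sum.inl ⟨c, i⟩) (Sum.inl ⟨c, j⟩)
  | seq (a b : X) : (∀ l, k ≤ l → a.x l = b.x l) → EM k (Sum.inr a) (Sum.inr b)

theorem EM_seq {k : ℕ} {a b : X} : EM k (Sum.inr a) (Sum.inr b) ↔ ∀ l, k ≤ l → a.x l = b.x l := by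
  constructor
  · intro h
    cases h with
    | seq _ _ h => exact h
  · exact EM.seq _ _

theorem EM_conf {k : ℕ} {c : Conf} {i j : Fin (c.n + 1)} :
    EM k (Sum.inl ⟨c, i⟩) (Sum.inl ⟨c, j⟩) ↔ c.e k i j := by
  constructor
  · intro h
    cases h with
    | conf _ _ _ h => exact h
  · exact EM.conf _ _ _

theorem nested_EM : Nested EM := by
  refine ⟨?_, ?_, ?_, ?_, ?_⟩
  · rintro k (⟨c, i⟩ | a)
    · exact .conf _ _ _ (c.nested.refl _ _)
    · exact .seq _ _ fun _ _ => rfl
  · rintro k _ _ (⟨c, i, j, h⟩ | ⟨a, b, h⟩)
    · exact .conf _ _ _ (c.nested.symm _ _ _ h)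
    · exact .seq _ _ fun l hl => (h l hl).symm
  · rintro k _ _ z (⟨c, i, j, h⟩ | ⟨a, b, h⟩) h2
    · cases h2 with
      | conf _ _ _ h2 => exact .conf _ _ _ (c.nested.trans _ _ _ _ h h2)
    · cases h2 with
      | seq _ _ h2 => exact .seq _ _ fun l hl => (h l hl).trans (h2 l hl)
  · rintro k _ _ (⟨c, i, j, h⟩ | ⟨a, b, h⟩)
    · exact .conf _ _ _ (c.nested.mono _ _ _ h)
    · exact .seq _ _ fun l hl => h l (by omega)
  · rintro _ _ (⟨c, i, j, h⟩ | ⟨a, b, h⟩)
    · rw [c.nested.eq _ _ h]
    · rw [X.ext' fun k => h k (Nat.zero_le _)]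

theorem rep_EM : Rep EM := by
  intro m n e he _
  refine ⟨fun i => Sum.inl ⟨⟨n, e, he⟩, i⟩, fun k _ i j => EM_conf, ?_⟩
  intro y hy
  cases hy with
  | conf _ i _ h => exact ⟨i, rfl⟩

instance : LE.Structure MS := mkStr EM

instance : Nonempty MS := ⟨Sum.inr ⟨fun _ => 0, ⟨0, fun _ _ => rfl⟩, fun _ _ h => by simp at h,
  fun _ => rfl⟩⟩

theorem rE_MS : rE MS = EM := by
  funext k x y
  rfl

/-- `T`: the complete theory of the model -/
def T : LE.Theory := LE.completeTheory MS

/-- its `∃_2` part -/
def U : LE.Theory := {σ | σ ∈ T ∧ Hier false 2 σ}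

theorem model_U_iff (N : Type u) [LE.Structure N] [Nonempty N] (h : N ⊨ U) (σ : LE.Sentence) :
    N ⊨ σ ↔ MS ⊨ σ := by
  have hn : Nested (rE MS) := by rw [rE_MS]; exact nested_EM
  have hr : Rep (rE MS) := by rw [rE_MS]; exact rep_EM
  have key : ∀ τ : LE.Sentence, MS ⊨ τ → Hier false 2 τ → N ⊨ τ := fun τ h1 h2 =>
    h.realize_of_mem τ ⟨h1, h2⟩
  have hN := good_of_realize N
    (fun k => key _ ((realize_reflS MS k).2 (hn.refl k)) (hier_reflS k))
    (fun k => key _ ((realize_symmS MS k).2 (hn.symm k)) (hier_symmS k))
    (fun k => key _ ((realize_transS MS k).2 (hn.trans k)) (hier_transS k))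
    (fun k => key _ ((realize_monoS MS k).2 (hn.mono k)) (hier_monoS k))
    (key _ ((realize_eqS MS).2 hn.eq) hier_eqS)
    (fun m n e he htot => key _ ((realize_confS m n e MS).2 (by
      obtain ⟨f, h1, h2⟩ := hr m n e he htot
      exact ⟨f, fun y => ⟨h1, h2 y⟩⟩)) (hier_confS m n e))
  exact elem_equiv N MS hN.1 hn hN.2 hr σ

/-! ### the relation controlling `∃_n`-types -/

/-- kind condition at level `n`: same kinds at levels `1, …, n`; even at level `n+1` is
preserved -/
def KX (n : ℕ) (a b : X) : Prop :=
  (∀ k, 1 ≤ k → k ≤ n → (Odd (a.x k) ↔ Odd (b.x k))) ∧ (Even (a.x (n + 1)) → Even (b.x (n + 1)))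

/-- kind condition for elements of the model -/
def Kd (n : ℕ) (u v : MS) : Prop :=
  (∃ w, u = Sum.inl w ∧ v = Sum.inl w) ∨ (∃ a b : X, u = Sum.inr a ∧ v = Sum.inr b ∧ KX n a b)

/-- the relation between tuples -/
def Rel {ι : Type} (n : ℕ) (a b : ι → MS) : Prop :=
  (∀ k i j, EM k (a i) (a j) ↔ EM k (b i) (b j)) ∧ ∀ i, Kd n (a i) (b i)

theorem Rel.weaken {ι : Type} {n : ℕ} {a b : ι → MS} (h : Rel (n + 1) a b) : Rel n b a := by
  refine ⟨fun k i j => (h.1 k i j).symm, fun i => ?_⟩
  rcases h.2 i with ⟨w, h1, h2⟩ | ⟨x, y, h1, h2, h3, h4⟩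
  · exact Or.inl ⟨w, h2, h1⟩
  · refine Or.inr ⟨y, x, h2, h1, fun k hk1 hk2 => (h3 k hk1 (by omega)).symm, ?_⟩
    intro h5
    have h6 := h3 (n + 1) (by omega) le_rfl
    rw [← Nat.not_odd_iff_even] at h5 ⊢
    exact fun h7 => h5 (h6.1 h7)

/-- the extension property -/
theorem Rel.ext {ι : Type} [Finite ι] {n : ℕ} {a b : ι → MS} (h : Rel n a b) (u : MS) :
    ∃ v, Kd n u v ∧ ∀ k i, EM k u (a i) ↔ EM k v (b i) := by
  classical
  obtain ⟨hp, hk⟩ := h
  cases hu : u with
  | inl w =>
    refine ⟨Sum.inl w, Or.inl ⟨w, rfl, rfl⟩, fun k i => ?_⟩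
    rcases hk i with ⟨w', h1, h2⟩ | ⟨x, y, h1, h2, -⟩
    · rw [h1, h2]
    · rw [h1, h2]
      constructor
      · intro h3; cases h3
      · intro h3; cases h3
  | inr x =>
    by_cases hex : ∃ j i, EM j (Sum.inr x) (a i)
    · obtain ⟨i, hi⟩ := Nat.find_spec hex
      have hmin : ∀ l, l < Nat.find hex → ∀ i', ¬ EM l (Sum.inr x) (a i') :=
        fun l hl i' h1 => Nat.find_min hex hl ⟨i', h1⟩
      generalize Nat.find hex = j at hi hmin
      rcases hk i with ⟨w', h1, h2⟩ | ⟨ai, bi, h1, h2, hK1, hK2⟩
      · rw [h1] at hi; cases hi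
      cases j with
      | zero =>
        have hx : (Sum.inr x : MS) = a i := nested_EM.eq _ _ hi
        refine ⟨b i, ?_, fun k i' => ?_⟩
        · rw [hx]; exact hk i
        · rw [hx]; exact hp k i i'
      | succ j =>
        rw [h1, EM_seq] at hi
        -- a bound for the values `b_l (j)`
        obtain ⟨S, hS⟩ : ∃ S : ℕ, ∀ i' (y : X), b i' = Sum.inr y → y.x j ≤ S := by
          have := Fintype.ofFinite ι
          refine ⟨∑ i', (match b i' with | Sum.inl _ => 0 | Sum.inr y => y.x j), ?_⟩
          intro i' y hy
          have h3 := Finset.single_le_sum (f := fun i' => (match b i' with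
            | Sum.inl _ => 0 | Sum.inr y => y.x j)) (fun _ _ => Nat.zero_le _)
            (Finset.mem_univ i')
          simp only [hy] at h3
          exact h3
        -- the new value at `j`
        let par : ℕ := if j ≤ n ∧ 1 ≤ j ∧ Odd (x.x j) then 1 else 0
        let yv : ℕ → ℕ := fun k =>
          if j + 1 ≤ k then bi.x k else if k = j then 2 * (S + 1) + par
          else if 1 ≤ k ∧ k ≤ n then x.x k else 0
        have y1 : ∀ k, j + 1 ≤ k → yv k = bi.x k := fun k hk => if_pos hk
        have y2 : yv j = 2 * (S + 1) + par := by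
          simp only [yv]; rw [if_neg (by omega), if_pos trivial]
        have y3 : ∀ k, k < j → 1 ≤ k → k ≤ n → yv k = x.x k := by
          intro k hk hk1 hk2
          simp only [yv]; rw [if_neg (by omega), if_neg (by omega), if_pos ⟨hk1, hk2⟩]
        have y4 : ∀ k, k < j → n < k → yv k = 0 := by
          intro k hk hk1
          simp only [yv]; rw [if_neg (by omega), if_neg (by omega), if_neg (by omega)]
        have y5 : 0 < j → yv 0 = 0 := by
          intro hj
          simp only [yv]; rw [if_neg (by omega), if_neg (by omega), if_neg (by omega)]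
        have hpar1 : j ≤ n → 1 ≤ j → (Odd (yv j) ↔ Odd (x.x j)) := by
          intro h3 h4
          rw [y2]
          by_cases h5 : Odd (x.x j)
          · have : par = 1 := if_pos ⟨h3, h4, h5⟩
            rw [this]
            exact iff_of_true ⟨S + 1, rfl⟩ h5
          · have : par = 0 := if_neg fun h6 => h5 h6.2.2
            rw [this]
            refine iff_of_false ?_ h5
            rw [Nat.not_odd_iff_even]
            exact ⟨S + 1, by ring⟩
        have hpar2 : n < j → Even (yv j) := by
          intro h3
          have : par = 0 := if_neg fun h6 => by omega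
          rw [y2, this]
          exact ⟨S + 1, by ring⟩
        -- kinds
        have hkind : ∀ k, 1 ≤ k → k ≤ n → (Odd (x.x k) ↔ Odd (yv k)) := by
          intro k hk1 hk2
          rcases lt_trichotomy k j with h3 | h3 | h3
          · rw [y3 k h3 hk1 hk2]
          · subst h3; exact (hpar1 hk2 hk1).symm
          · rw [y1 k h3, hi k h3]; exact hK1 k hk1 hk2
        have htop : Even (x.x (n + 1)) → Even (yv (n + 1)) := by
          intro h3
          rcases lt_trichotomy (n + 1) j with h4 | h4 | h4
          · rw [y4 _ h4 (by omega)]; exact Even.zero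
          · rw [h4]; exact hpar2 (by omega)
          · rw [y1 _ h4]; rw [hi _ h4] at h3; exact hK2 h3
        have hfin : ∃ K, ∀ k, K ≤ k → yv k = 0 := by
          obtain ⟨K, hK⟩ := bi.fin
          exact ⟨max K (j + 1), fun k hk => by
            rw [y1 k (le_trans (le_max_right _ _) hk), hK k (le_trans (le_max_left _ _) hk)]⟩
        have halt : ∀ k, 1 ≤ k → Odd (yv (k + 1)) → Even (yv k) := by
          intro k hk1 hodd
          by_cases hkn : k + 1 ≤ n
          · have h3 : Odd (x.x (k + 1)) := (hkind (k + 1) (by omega) hkn).2 hodd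
            have h4 := x.alt k hk1 h3
            rw [← Nat.not_odd_iff_even] at h4 ⊢
            exact fun h5 => h4 ((hkind k hk1 (by omega)).2 h5)
          · rcases lt_trichotomy k j with h3 | h3 | h3
            · -- `k < j`
              rcases Nat.lt_or_ge (k + 1) j with h4 | h4
              · rw [y4 _ h4 (by omega)] at hodd
                exact absurd hodd (by simp)
              · have h5 : k + 1 = j := by omega
                rw [h5] at hodd
                have := hpar2 (by omega)
                rw [← Nat.not_odd_iff_even] at this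
                exact absurd hodd this
            · subst h3
              rcases Nat.lt_or_ge n k with h4 | h4
              · exact hpar2 h4
              · -- `k = n`
                have h5 : k = n := by omega
                have h6 : Odd (x.x (k + 1)) := by
                  by_contra h7
                  rw [Nat.not_odd_iff_even] at h7
                  have h8 := htop (by rw [← h5]; exact h7)
                  rw [← h5, ← Nat.not_odd_iff_even] at h8
                  exact h8 hodd
                have h9 := x.alt k hk1 h6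
                rw [← Nat.not_odd_iff_even] at h9 ⊢
                exact fun h10 => h9 ((hkind k hk1 (by omega)).2 h10)
            · rw [y1 _ (by omega)] at hodd
              rw [y1 _ h3]
              exact bi.alt k hk1 hodd
        have hbot : Odd (yv 1) → yv 0 = 0 := by
          intro hodd
          rcases Nat.eq_zero_or_pos j with h3 | h3
          · -- `j = 0`: `x` and `a_i` differ at `0`, so level 1 is even
            exfalso
            subst h3
            rw [y1 1 (by omega)] at hodd
            have h4 : Odd (ai.x 1) := by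
              rcases Nat.eq_zero_or_pos n with h5 | h5
              · by_contra h6
                rw [Nat.not_odd_iff_even] at h6
                have := hK2 (by rw [h5]; exact h6)
                rw [h5, ← Nat.not_odd_iff_even] at this
                exact this hodd
              · exact (hK1 1 le_rfl h5).2 hodd
            have h7 : Odd (x.x 1) := by rw [hi 1 le_rfl]; exact h4
            apply hmin 0 (by omega) i
            rw [h1, EM_seq]
            intro l _
            rcases Nat.eq_zero_or_pos l with h8 | h8
            · rw [h8, x.bot h7, ai.bot h4]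
            · exact hi l (by omega)
          · exact y5 h3
        let y : X := ⟨yv, hfin, halt, hbot⟩
        refine ⟨Sum.inr y, Or.inr ⟨x, y, rfl, rfl, hkind, htop⟩, fun k i' => ?_⟩
        rcases hk i' with ⟨w', h3, h4⟩ | ⟨ai', bi', h3, h4, -⟩
        · rw [h3, h4]
          constructor
          · intro h5; cases h5
          · intro h5; cases h5
        · rcases Nat.lt_or_ge k (j + 1) with h5 | h5
          · constructor
            · intro h6; exact absurd h6 (hmin k h5 i')
            · intro h6
              exfalso
              rw [h4, EM_seq] at h6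
              have h7 := h6 j (by omega)
              have h8 := hS i' bi' h4
              have h9 : y.x j = 2 * (S + 1) + par := y2
              omega
          · have h6 : EM k (Sum.inr x) (a i) := by
              rw [h1, EM_seq]; exact fun l hl => hi l (by omega)
            have h7 : EM k (Sum.inr y) (b i) := by
              rw [h2, EM_seq]; exact fun l hl => y1 l (by omega)
            constructor
            · intro h8
              exact nested_EM.trans _ _ _ _ h7
                ((hp k i i').1 (nested_EM.trans _ _ _ _ (nested_EM.symm _ _ _ h6) h8))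
            · intro h8
              exact nested_EM.trans _ _ _ _ h6
                ((hp k i i').2 (nested_EM.trans _ _ _ _ (nested_EM.symm _ _ _ h7) h8))
    · push Not at hex
      refine ⟨Sum.inr x, Or.inr ⟨x, x, rfl, rfl, fun k _ _ => Iff.rfl, fun h => h⟩, fun k i => ?_⟩
      constructor
      · intro h3; exact absurd h3 (hex k i)
      · intro h3
        exfalso
        rcases hk i with ⟨w', h1, h2⟩ | ⟨x', y', h1, h2, -⟩
        · rw [h2] at h3; cases h3
        · -- elements of `X` are always related at a high level
          obtain ⟨K, hK⟩ := x.fin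
          obtain ⟨K', hK'⟩ := x'.fin
          apply hex (max K K') i
          rw [h1, EM_seq]
          intro l hl
          rw [hK l (le_trans (le_max_left _ _) hl), hK' l (le_trans (le_max_right _ _) hl)]

end Pool.Agent.Q202.UT
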