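import Mathlib
import Pool.Agent.Q202.UT.Model

/-!
# Formulas with a constant; an unbounded type
-/

namespace Pool.Agent.Q202.UT

open FirstOrder FirstOrder.Language

/-- realization in the model with the constant interpreted by `a` -/
def RzC (a : Fin 1 → MS) {l : ℕ} (φ : LE[[Fin 1]].BoundedFormula Empty l)
    (xs : Fin l → MS) : Prop :=
  letI : (constantsOn (Fin 1)).Structure MS := constantsOn.structure a
  φ.Realize default xs

/-- value of a term in the model with the constant interpreted by `a` -/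
def TzC (a : Fin 1 → MS) {l : ℕ} (t : LE[[Fin 1]].Term (Empty ⊕ Fin l))
    (xs : Fin l → MS) : MS :=
  letI : (constantsOn (Fin 1)).Structure MS := constantsOn.structure a
  t.realize (Sum.elim default xs)

theorem term_c {l : ℕ} (t : LE[[Fin 1]].Term (Empty ⊕ Fin l)) :
    ∃ s : Fin 1 ⊕ Fin l, ∀ a xs, TzC a t xs = Sum.elim a xs s := by
  cases t with
  | var s =>
    cases s with
    | inl e => exact e.elim
    | inr i => exact ⟨Sum.inr i, fun a xs => rfl⟩
  | @func n f ts =>
    cases f with
    | inl f => exact Empty.elim f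
    | inr f =>
      cases n with
      | zero => exact ⟨Sum.inl f, fun a xs => rfl⟩
      | succ n => exact PEmpty.elim f

theorem atomic_c {l : ℕ} {φ : LE[[Fin 1]].BoundedFormula Empty l} (hφ : φ.IsAtomic)
    {a b : Fin 1 → MS} {v w : Fin l → MS}
    (h : ∀ k i j, EM k (Sum.elim a v i) (Sum.elim a v j) ↔
      EM k (Sum.elim b w i) (Sum.elim b w j)) : RzC a φ v ↔ RzC b φ w := by
  cases hφ with
  | equal t₁ t₂ =>
    obtain ⟨s₁, h₁⟩ := term_c t₁
    obtain ⟨s₂, h₂⟩ := term_c t₂
    have e1 : ∀ a v, RzC a (t₁.bdEqual t₂) v ↔ TzC a t₁ v = TzC a t₂ v := fun a v => Iff.rfl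
    rw [e1, e1, h₁, h₂, h₁, h₂]
    have h3 := h 0 s₁ s₂
    constructor
    · intro h4
      rw [h4] at h3
      exact nested_EM.eq _ _ (h3.1 (nested_EM.refl _ _))
    · intro h4
      rw [h4] at h3
      exact nested_EM.eq _ _ (h3.2 (nested_EM.refl _ _))
  | rel r ts =>
    cases r with
    | inr r => exact Empty.elim r
    | inl r =>
      cases r with
      | E k =>
        obtain ⟨s₁, h₁⟩ := term_c (ts 0)
        obtain ⟨s₂, h₂⟩ := term_c (ts 1)
        have e1 : ∀ a v, RzC a (Relations.boundedFormula (L := LE[[Fin 1]])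
            (Sum.inl (Rl.E k)) ts) v ↔ EM k (TzC a (ts 0) v) (TzC a (ts 1) v) :=
          fun a v => Iff.rfl
        rw [e1, e1, h₁, h₂, h₁, h₂]
        exact h k s₁ s₂

theorem qf_c {l : ℕ} {φ : LE[[Fin 1]].BoundedFormula Empty l} (hφ : φ.IsQF)
    {a b : Fin 1 → MS} {v w : Fin l → MS}
    (h : ∀ k i j, EM k (Sum.elim a v i) (Sum.elim a v j) ↔
      EM k (Sum.elim b w i) (Sum.elim b w j)) : RzC a φ v ↔ RzC b φ w := by
  induction hφ with
  | falsum => exact Iff.rfl
  | of_isAtomic hφ => exact atomic_c hφ h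
  | imp _ _ ih1 ih2 => exact imp_congr (ih1) (ih2)

theorem Rel.snoc {l n : ℕ} {a a' : Fin 1 → MS} {v w : Fin l → MS}
    (h : Rel n (Sum.elim a v) (Sum.elim a' w)) {x y : MS} (hk : Kd n x y)
    (hp : ∀ k i, EM k x (Sum.elim a v i) ↔ EM k y (Sum.elim a' w i)) :
    Rel n (Sum.elim a (Fin.snoc (α := fun _ => MS) v x))
      (Sum.elim a' (Fin.snoc (α := fun _ => MS) w y)) := by
  have key : ∀ i : Fin 1 ⊕ Fin (l + 1), (i = Sum.inr (Fin.last l)) ∨
      ∃ i' : Fin 1 ⊕ Fin l, Sum.elim a (Fin.snoc (α := fun _ => MS) v x) i = Sum.elim a v i' ∧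
        Sum.elim a' (Fin.snoc (α := fun _ => MS) w y) i = Sum.elim a' w i' := by
    rintro (c | i)
    · exact Or.inr ⟨Sum.inl c, rfl, rfl⟩
    · refine Fin.lastCases ?_ (fun i => ?_) i
      · exact Or.inl rfl
      · refine Or.inr ⟨Sum.inr i, ?_, ?_⟩
        · simp
        · simp
  have hl1 : Sum.elim a (Fin.snoc (α := fun _ => MS) v x) (Sum.inr (Fin.last l)) = x := by simp
  have hl2 : Sum.elim a' (Fin.snoc (α := fun _ => MS) w y) (Sum.inr (Fin.last l)) = y := by simp
  constructor
  · intro k i j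
    rcases key i with rfl | ⟨i', h1, h2⟩
    · rcases key j with rfl | ⟨j', h3, h4⟩
      · exact iff_of_true (nested_EM.refl _ _) (nested_EM.refl _ _)
      · rw [h3, h4, hl1, hl2]; exact hp k j'
    · rcases key j with rfl | ⟨j', h3, h4⟩
      · rw [h1, h2, hl1, hl2]
        exact ⟨fun h5 => nested_EM.symm _ _ _ ((hp k i').1 (nested_EM.symm _ _ _ h5)),
          fun h5 => nested_EM.symm _ _ _ ((hp k i').2 (nested_EM.symm _ _ _ h5))⟩
      · rw [h1, h2, h3, h4]; exact h.1 k i' j'
  · intro i
    rcases key i with rfl | ⟨i', h1, h2⟩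
    · rw [hl1, hl2]; exact hk
    · rw [h1, h2]; exact h.2 i'

theorem hier_c {b : Bool} {n l : ℕ} {φ : LE[[Fin 1]].BoundedFormula Empty l}
    (hφ : Hier b n φ) : ∀ {a a' : Fin 1 → MS} {v w : Fin l → MS},
      Rel n (Sum.elim a v) (Sum.elim a' w) →
        (b = false → RzC a φ v → RzC a' φ w) ∧ (b = true → RzC a' φ w → RzC a φ v) := by
  induction hφ with
  | qf b hφ =>
    intro a a' v w h
    exact ⟨fun _ => (qf_c hφ h.1).1, fun _ => (qf_c hφ h.1).2⟩
  | @step b n l φ _ ih =>
    intro a a' v w h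
    obtain ⟨h1, h2⟩ := ih h.weaken
    exact ⟨fun hb => h2 (by simp [hb]), fun hb => h1 (by simp [hb])⟩
  | @all n l φ _ ih =>
    intro a a' v w h
    refine ⟨fun hb => (Bool.noConfusion hb), fun _ h1 x => ?_⟩
    obtain ⟨y, hy1, hy2⟩ := h.ext x
    exact (ih (h.snoc hy1 hy2)).2 rfl (h1 y)
  | @ex n l φ _ ih =>
    intro a a' v w h
    refine ⟨fun _ h1 => ?_, fun hb => (Bool.noConfusion hb)⟩
    have e1 : ∀ (a : Fin 1 → MS) (v : Fin l → MS), RzC a φ.ex v ↔
        ∃ x, RzC a φ (Fin.snoc (α := fun _ => MS) v x) := by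
      intro a v
      let : (constantsOn (Fin 1)).Structure MS := constantsOn.structure a
      exact BoundedFormula.realize_ex
    obtain ⟨x, hx⟩ := (e1 a v).1 h1
    obtain ⟨y, hy1, hy2⟩ := h.ext x
    exact (e1 a' w).2 ⟨y, (ih (h.snoc hy1 hy2)).1 rfl hx⟩

/-! ### the formulas `α_k` -/

/-- `A 0 x`: `[x]_{E_1} = {x}`; `A (k+1) x`: no element of `[x]_{E_{k+2}}` satisfies `A k` -/
def A : ℕ → MS → Prop
  | 0, x => ∀ y, EM 1 y x → y = x
  | k + 1, x => ∀ y, EM (k + 2) y x → ¬ A k y

theorem A_iff (k : ℕ) : ∀ x : X, A k (Sum.inr x) ↔ Odd (x.x (k + 1)) := by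
  induction k with
  | zero =>
    intro x
    constructor
    · intro h
      by_contra h1
      let y : X := ⟨fun l => if l = 0 then x.x 0 + 1 else x.x l, by
          obtain ⟨K, hK⟩ := x.fin
          refine ⟨K + 1, fun k hk => ?_⟩
          rw [if_neg (by omega)]
          exact hK k (by omega), by
          intro k hk h2
          rw [if_neg (by omega)] at h2 ⊢
          exact x.alt k hk h2, by
          intro h2
          rw [if_neg (by omega)] at h2
          exact absurd h2 h1⟩
      have h2 := h (Sum.inr y) (EM_seq.2 fun l hl => by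
        show (if l = 0 then x.x 0 + 1 else x.x l) = x.x l
        rw [if_neg (by omega)])
      have h3 : y = x := Sum.inr.inj h2
      have h4 : y.x 0 = x.x 0 := by rw [h3]
      have h5 : y.x 0 = x.x 0 + 1 := by
        show (if 0 = 0 then x.x 0 + 1 else x.x 0) = x.x 0 + 1
        rw [if_pos rfl]
      omega
    · intro h y hy
      cases hy with
      | seq y _ hy =>
        have h1 : y.x 1 = x.x 1 := hy 1 le_rfl
        have h2 : y.x 0 = x.x 0 := by
          rw [x.bot h, y.bot (by rw [h1]; exact h)]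
        have h3 : y = x := X.ext' fun l => by
          rcases Nat.eq_zero_or_pos l with rfl | hl
          · exact h2
          · exact hy l hl
        rw [h3]
  | succ k ih =>
    intro x
    constructor
    · intro h
      by_contra h1
      rw [Nat.not_odd_iff_even] at h1
      let f : ℕ → ℕ := fun l => if k + 2 ≤ l then x.x l else if l = k + 1 then 1 else 0
      have f1 : ∀ l, k + 2 ≤ l → f l = x.x l := fun l hl => if_pos hl
      have f2 : f (k + 1) = 1 := by simp only [f]; rw [if_neg (by omega), if_pos trivial]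
      have f3 : ∀ l, l ≤ k → f l = 0 := by
        intro l hl
        simp only [f]; rw [if_neg (by omega), if_neg (by omega)]
      let y : X := ⟨f, by
          obtain ⟨K, hK⟩ := x.fin
          refine ⟨K + (k + 2), fun l hl => ?_⟩
          rw [f1 l (by omega)]
          exact hK l (by omega), by
          intro l hl h2
          rcases lt_trichotomy l (k + 1) with h3 | h3 | h3
          · rw [f3 l (by omega)]; exact Even.zero
          · exfalso
            rw [h3, f1 _ (by omega)] at h2
            rw [← Nat.not_odd_iff_even] at h1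
            exact h1 h2
          · rw [f1 _ (by omega)] at h2 ⊢
            exact x.alt l hl h2, by
          intro h2
          exact f3 0 (by omega)⟩
      have h2 := h (Sum.inr y) (EM_seq.2 fun l hl => f1 l hl)
      rw [ih y] at h2
      apply h2
      show Odd (f (k + 1))
      rw [f2]
      exact odd_one
    · intro h y hy
      cases hy with
      | seq y _ hy =>
        rw [ih y]
        have h1 : y.x (k + 2) = x.x (k + 2) := hy _ le_rfl
        rw [Nat.not_odd_iff_even]
        exact y.alt (k + 1) (by omega) (by rw [h1]; exact h)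

/-- the variable `t` after adding one bound variable -/
def lft {n : ℕ} (t : Fin 1 ⊕ Fin n) : LE.Term (Fin 1 ⊕ Fin (n + 1)) :=
  Term.var (Sum.map id Fin.castSucc t)

/-- the new bound variable -/
def nw (n : ℕ) : LE.Term (Fin 1 ⊕ Fin (n + 1)) := Term.var (Sum.inr (Fin.last n))

/-- the formulas `α_k` -/
def alphaF : ℕ → ∀ n : ℕ, Fin 1 ⊕ Fin n → LE.BoundedFormula (Fin 1) n
  | 0, n, t => (re 1 (nw n) (lft t) ⟹ (nw n) =' (lft t)).all
  | k + 1, n, t => (re (k + 2) (nw n) (lft t) ⟹ ∼(alphaF k (n + 1) (Sum.inr (Fin.last n)))).all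

theorem realize_alphaF (k : ℕ) : ∀ (n : ℕ) (t : Fin 1 ⊕ Fin n) (v : Fin 1 → MS)
    (xs : Fin n → MS), (alphaF k n t).Realize v xs ↔ A k (Sum.elim v xs t) := by
  have hn : ∀ (n : ℕ) (v : Fin 1 → MS) (xs : Fin n → MS) (y : MS),
      (nw n).realize (Sum.elim v (Fin.snoc (α := fun _ => MS) xs y)) = y := by
    intro n v xs y
    show Fin.snoc (α := fun _ => MS) xs y (Fin.last n) = y
    simp
  have hl : ∀ (n : ℕ) (t : Fin 1 ⊕ Fin n) (v : Fin 1 → MS) (xs : Fin n → MS) (y : MS),
      (lft t).realize (Sum.elim v (Fin.snoc (α := fun _ => MS) xs y)) = Sum.elim v xs t := by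
    intro n t v xs y
    rcases t with c | i
    · rfl
    · show Fin.snoc (α := fun _ => MS) xs y (Fin.castSucc i) = xs i
      simp
  induction k with
  | zero =>
    intro n t v xs
    unfold alphaF A
    rw [BoundedFormula.realize_all]
    refine forall_congr' fun y => ?_
    rw [BoundedFormula.realize_imp, realize_re, BoundedFormula.realize_bdEqual, hn, hl, rE_MS]
  | succ k ih =>
    intro n t v xs
    unfold alphaF A
    rw [BoundedFormula.realize_all]
    refine forall_congr' fun y => ?_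
    rw [BoundedFormula.realize_imp, realize_re, BoundedFormula.realize_not, hn, hl, rE_MS, ih]
    simp

/-! ### the type -/

/-- the zero sequence -/
def zeroX : X := ⟨fun _ => 0, ⟨0, fun _ _ => rfl⟩, fun _ _ h => by simp at h, fun _ => rfl⟩

/-- the sequence with a single `1` at position `n + 1` -/
def eX (n : ℕ) : X := ⟨fun l => if l = n + 1 then 1 else 0, ⟨n + 2, fun k hk => by
    rw [if_neg (by omega)]⟩, fun k hk h => by
    by_cases h1 : k + 1 = n + 1
    · rw [if_neg (by omega)]; exact Even.zero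
    · rw [if_neg h1] at h; simp at h, fun _ => if_neg (by omega)⟩

theorem rel_eX (n : ℕ) : Rel n (Sum.elim (fun _ : Fin 1 => (Sum.inr (eX n) : MS))
      (default : Fin 0 → MS)) (Sum.elim (fun _ => Sum.inr zeroX) default) := by
  constructor
  · rintro k (i | i) (j | j)
    · exact iff_of_true (nested_EM.refl _ _) (nested_EM.refl _ _)
    · exact j.elim0
    · exact i.elim0
    · exact i.elim0
  · rintro (i | i)
    · refine Or.inr ⟨eX n, zeroX, rfl, rfl, ⟨fun k hk1 hk2 => ?_, fun _ => Even.zero⟩⟩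
      show Odd (if k = n + 1 then 1 else 0) ↔ Odd 0
      rw [if_neg (by omega)]
    · exact i.elim0

instance : MS ⊨ T := ⟨fun _ h => h⟩

/-- the zero sequence as an element of the model -/
def zM : MS := Sum.inr zeroX

/-- the type of the zero sequence -/
noncomputable def pT : T.CompleteType (Fin 1) := T.typeOf (M := MS) (fun _ => zM)

theorem unbounded (n : ℕ) (V : LE[[Fin 1]].Theory) (hV : ∀ σ ∈ V, Hier true n σ)
    (h : ∀ σ : LE[[Fin 1]].Sentence, V ⊨ᵇ σ ↔ pT.toTheory ⊨ᵇ σ) : False := by
  -- the negation of `α_n` is in the type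
  have h0 : Formula.equivSentence (∼(alphaF n 0 (Sum.inl 0))) ∈ pT := by
    unfold pT
    rw [Theory.CompleteType.formula_mem_typeOf]
    show ¬ (alphaF n 0 (Sum.inl 0)).Realize _ _
    rw [realize_alphaF]
    show ¬ A n (Sum.inr zeroX)
    rw [A_iff]
    show ¬ Odd 0
    simp
  have h1 : V ⊨ᵇ Formula.equivSentence (∼(alphaF n 0 (Sum.inl 0))) :=
    (h _).2 (Theory.models_sentence_of_mem h0)
  -- `V` is true at the zero sequence
  have h2 : ∀ σ ∈ V, RzC (fun _ => Sum.inr zeroX) σ default := by
    intro σ hσ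
    have h3 : pT.toTheory ⊨ᵇ σ := (h σ).1 (Theory.models_sentence_of_mem hσ)
    let : (constantsOn (Fin 1)).Structure MS := constantsOn.structure (fun _ => zM)
    have h4 : MS ⊨ pT.toTheory := ⟨fun τ hτ => hτ⟩
    exact h3.realize_sentence MS
  -- hence at `eX n`
  have h5 : ∀ σ ∈ V, RzC (fun _ => Sum.inr (eX n)) σ default := by
    intro σ hσ
    exact (hier_c (hV σ hσ) (rel_eX n)).2 rfl (h2 σ hσ)
  let : (constantsOn (Fin 1)).Structure MS :=
    constantsOn.structure (fun _ => (Sum.inr (eX n) : MS))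
  have h6 : MS ⊨ V := ⟨fun σ hσ => h5 σ hσ⟩
  have h7 : MS ⊨ Formula.equivSentence (∼(alphaF n 0 (Sum.inl 0))) := h1.realize_sentence MS
  rw [Formula.realize_equivSentence] at h7
  apply h7
  show (alphaF n 0 (Sum.inl 0)).Realize _ _
  rw [realize_alphaF]
  show A n (Sum.inr (eX n))
  rw [A_iff]
  show Odd (if n + 1 = n + 1 then 1 else 0)
  simp

end Pool.Agent.Q202.UT
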